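import Pool.Agent.PX.Stmts

set_option autoImplicit false

/-!
# Squad PX, row WWX (helper20, edit of the row WWM of helper47): the spaces `WW`, `GT`, `BT`
-/

namespace Pool.Agent.PX.H20

open MvPolynomial
open Pool.Agent.RS (FF io)
open Pool.Agent.PW (dd JUN RR FG Robust VV Piv del eul Ph Zer Free)

theorem wwx : WwxStmt := by
  classical
  have hM : Pool.Agent.PW.FgmStmt := Pool.Agent.PW.aFgm
  have hS : Pool.Agent.PW.FgsStmt := Pool.Agent.PW.aFgs
  have hR : Pool.Agent.PW.RrsStmt := Pool.Agent.PW.aRrs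
  intro E _ _ c0
  obtain ⟨-, hMc, -, -, -⟩ := hM E
  have hRm : ∀ (k k' : ℕ) (w : FF E), k ≤ k' → RR k w → RR k' w := fun k =>
    (hR E k).2.2.2.1
  refine ⟨?_, ?_, ?_, ?_, ?_, ?_⟩
  · intro R R' c c' hRR hcc
    refine Submodule.span_mono ?_
    rintro w ⟨H, b, h1, h2, h3, h4, h5⟩
    exact ⟨H, b, hRm c c' H hcc h1, hMc c c' ∅ H hcc h2, le_trans h3 hRR, h4, h5⟩
  · intro R c b f h hlen hb hf hFG hRRh
    refine Submodule.span_induction
      (p := fun f _ => io E f * h / io E b.prod ∈ WW E c0 R c) ?_ ?_ ?_ ?_ hf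
    · intro g hg
      have hg' : g ∈ b := hg
      refine Submodule.subset_span ⟨h, b.erase g, hRRh, hFG, ?_, ?_, ?_⟩
      · rw [List.length_erase_of_mem hg', hlen]
        exact le_of_eq (Nat.add_sub_cancel R 1)
      · intro g' hg''
        exact hb g' (List.mem_of_mem_erase hg'')
      · have h1 : b.prod = g * (b.erase g).prod := (List.prod_erase hg').symm
        have h2 : io E g ≠ 0 := by
          rw [Ne, map_eq_zero_iff _ (IsFractionRing.injective _ _)]
          exact (hb g hg').1
        rw [h1, map_mul, mul_div_mul_left _ _ h2]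
    · rw [map_zero, zero_mul, zero_div]
      exact Submodule.zero_mem _
    · intro x y _ _ hx hy
      rw [map_add, add_mul, add_div]
      exact Submodule.add_mem _ hx hy
    · intro a x _ hx
      have h1 : io E (a • x) * h / io E b.prod = a • (io E x * h / io E b.prod) := by
        have h2 : io E (a • x) = a • io E x := by
          rw [Algebra.smul_def, Algebra.smul_def, map_mul]
          rfl
        rw [h2, smul_mul_assoc, smul_div_assoc]
      rw [h1]
      exact Submodule.smul_mem _ _ hx
  · intro R c N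
    refine Submodule.span_le.2 ?_
    rintro w ⟨H, b, h1, h2, h3, h4, h5⟩
    rcases Nat.lt_or_ge R b.length with h6 | h6
    · have h7 : b.length = R + 1 := by omega
      by_cases h8 : Robust N (Submodule.span E {g | g ∈ b})
      · exact (le_trans le_sup_left le_sup_left : GT E c0 N (R + 1) c 0 ≤ _)
          (Submodule.subset_span ⟨H, b, h1, h2, h7, h4, h8, Nat.zero_le _, h5⟩)
      · exact (le_trans le_sup_right le_sup_left : BT E c0 N (R + 1) c ≤ _)
          (Submodule.subset_span ⟨H, b, h1, h2, h7, h4, h8, h5⟩)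
    · exact (le_sup_right : WW E c0 R c ≤ _)
        (Submodule.subset_span ⟨H, b, h1, h2, h6, h4, h5⟩)
  · intro R c N ρ hρ
    refine le_antisymm (Submodule.span_le.2 ?_) bot_le
    rintro w ⟨H, b, h1, h2, h3, h4, h5, h6, h7⟩
    exfalso
    have h8 : Module.finrank E (Submodule.span E {g | g ∈ b}) ≤ b.length := by
      have h9 : ({g | g ∈ b} : Set (MvPolynomial ℕ E)) = (b.toFinset : Set _) := by
        ext g
        simp
      rw [h9]
      exact le_trans (finrank_span_finset_le_card _) (List.toFinset_card_le b)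
    omega
  · intro c W hW
    obtain ⟨S, hSS⟩ := hS E c ∅
    have h1 : WW E c0 0 c ≤ S := by
      refine Submodule.span_le.2 ?_
      rintro w ⟨H, b, h1, h2, h3, h4, h5⟩
      have h6 : b = [] := List.eq_nil_of_length_eq_zero (Nat.le_zero.1 h3)
      rw [h5, h6, List.prod_nil, map_one, div_one]
      exact (hSS H).2 h2
    exact (hSS W).1 (h1 hW)
  · intro R c c' N ρ hcc
    refine ⟨Submodule.span_mono ?_, Submodule.span_mono ?_⟩
    · rintro w ⟨H, b, h1, h2, h3, h4, h5, h6, h7⟩
      exact ⟨H, b, hRm c c' H hcc h1, hMc c c' ∅ H hcc h2, h3, h4, h5, h6, h7⟩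
    · rintro w ⟨H, b, h1, h2, h3, h4, h5, h6⟩
      exact ⟨H, b, hRm c c' H hcc h1, hMc c c' ∅ H hcc h2, h3, h4, h5, h6⟩

end Pool.Agent.PX.H20
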